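import Mathlib

/-!
# MP_c2536d_co: OR/AND structure for Boolean functions concentrated within partition blocks

We prove that a Boolean function whose Fourier weight is concentrated, up to `ε`, on sets lying
inside a block of a partition of the coordinates is `K ε`-close in squared `L_2` distance to an
OR or to an AND of Boolean functions of the blocks, with a universal constant `K`.
-/

namespace Pool.Agent.Results.MP_c2536d_co.OrAndStructure

open Finset

/-! ## Uniform expectation on finite product spaces -/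

section Space

variable {ι α : Type} [Fintype ι] [DecidableEq ι] [Fintype α]

/-- Expectation for the uniform distribution on `ι → α`. -/
noncomputable def Ex (u : (ι → α) → ℝ) : ℝ := (∑ x, u x) / (Fintype.card (ι → α) : ℝ)

open scoped Classical in
/-- The indicator of a proposition. -/
noncomputable def ind (P : Prop) : ℝ := if P then 1 else 0

/-- Probability of an event. -/
noncomputable def Pr (P : (ι → α) → Prop) : ℝ := Ex (fun x => ind (P x))

theorem ind_true {P : Prop} (h : P) : ind P = 1 := by simp [ind, h]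
theorem ind_false {P : Prop} (h : ¬ P) : ind P = 0 := by simp [ind, h]
theorem ind_nonneg (P : Prop) : 0 ≤ ind P := by
  by_cases h : P <;> simp [ind, h]
theorem ind_le_one (P : Prop) : ind P ≤ 1 := by
  by_cases h : P <;> simp [ind, h]
theorem ind_and (P Q : Prop) : ind (P ∧ Q) = ind P * ind Q := by
  by_cases h : P <;> by_cases h' : Q <;> simp [ind, h, h']
theorem ind_or01 (P : Prop) : ind P = 0 ∨ ind P = 1 := by
  by_cases h : P <;> simp [ind, h]

theorem Ex_add (u v : (ι → α) → ℝ) : Ex (fun x => u x + v x) = Ex u + Ex v := by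
  simp only [Ex, Finset.sum_add_distrib, add_div]

theorem Ex_sub (u v : (ι → α) → ℝ) : Ex (fun x => u x - v x) = Ex u - Ex v := by
  simp only [Ex, Finset.sum_sub_distrib, sub_div]

theorem Ex_mul_left (c : ℝ) (u : (ι → α) → ℝ) : Ex (fun x => c * u x) = c * Ex u := by
  simp only [Ex, ← Finset.mul_sum, mul_div_assoc]

theorem Ex_sum {κ : Type} (s : Finset κ) (u : κ → (ι → α) → ℝ) :
    Ex (fun x => ∑ k ∈ s, u k x) = ∑ k ∈ s, Ex (u k) := by
  simp only [Ex]
  rw [Finset.sum_comm, Finset.sum_div]

theorem Ex_mono {u v : (ι → α) → ℝ} (h : ∀ x, u x ≤ v x) : Ex u ≤ Ex v := by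
  unfold Ex
  apply div_le_div_of_nonneg_right _ (by positivity)
  exact Finset.sum_le_sum (fun x _ => h x)

theorem Ex_nonneg {u : (ι → α) → ℝ} (h : ∀ x, 0 ≤ u x) : 0 ≤ Ex u := by
  unfold Ex
  apply div_nonneg _ (by positivity)
  exact Finset.sum_nonneg (fun x _ => h x)

theorem Ex_const [Nonempty α] (c : ℝ) : Ex (fun _ : ι → α => c) = c := by
  unfold Ex
  rw [Finset.sum_const, Finset.card_univ, nsmul_eq_mul]
  have : (Fintype.card (ι → α) : ℝ) ≠ 0 := by
    have := Fintype.card_pos (α := ι → α)
    positivity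
  field_simp

theorem markov {P : (ι → α) → Prop} {w : (ι → α) → ℝ} {c : ℝ} (hw : ∀ x, 0 ≤ w x)
    (h : ∀ x, P x → c ≤ w x) : c * Pr P ≤ Ex w := by
  unfold Pr
  rw [← Ex_mul_left]
  apply Ex_mono
  intro x
  by_cases hx : P x
  · rw [ind_true hx, mul_one]; exact h x hx
  · rw [ind_false hx, mul_zero]; exact hw x

theorem Pr_nonneg (P : (ι → α) → Prop) : 0 ≤ Pr P := Ex_nonneg (fun x => ind_nonneg _)

theorem Pr_mono {P Q : (ι → α) → Prop} (h : ∀ x, P x → Q x) : Pr P ≤ Pr Q := by
  apply Ex_mono
  intro x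
  by_cases hx : P x
  · rw [ind_true hx, ind_true (h x hx)]
  · rw [ind_false hx]; exact ind_nonneg _

open scoped Classical in
/-- Choose the coordinates in `J` from the first components, the others from the second. -/
noncomputable def sel (J : ι → Prop) (z : ι → α × α) : ι → α :=
  fun i => if J i then (z i).1 else (z i).2

open scoped Classical in
noncomputable def selEquiv (J : ι → Prop) : (ι → α × α) ≃ (ι → α) × (ι → α) where
  toFun z := (sel J z, sel (fun i => ¬ J i) z)
  invFun p := fun i => if J i then (p.1 i, p.2 i) else (p.2 i, p.1 i)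
  left_inv z := by
    funext i
    by_cases h : J i <;> simp [sel, h]
  right_inv p := by
    apply Prod.ext
    · funext i
      by_cases h : J i <;> simp [sel, h]
    · funext i
      by_cases h : J i <;> simp [sel, h]

theorem Ex_sel_mul (J : ι → Prop) (F G : (ι → α) → ℝ) :
    Ex (fun z : ι → α × α => F (sel J z) * G (sel (fun i => ¬ J i) z)) = Ex F * Ex G := by
  unfold Ex
  have hc : Fintype.card (ι → α × α) = Fintype.card (ι → α) * Fintype.card (ι → α) := by
    rw [Fintype.card_congr (selEquiv (α := α) J), Fintype.card_prod]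
  have hs : ∑ z : ι → α × α, F (sel J z) * G (sel (fun i => ¬ J i) z)
      = ∑ p : (ι → α) × (ι → α), F p.1 * G p.2 :=
    Equiv.sum_comp (selEquiv (α := α) J) (fun p => F p.1 * G p.2)
  rw [hs, hc, Fintype.sum_prod_type, Nat.cast_mul, div_mul_div_comm]
  congr 1
  rw [Finset.sum_mul_sum]

theorem Ex_sel [Nonempty α] (J : ι → Prop) (F : (ι → α) → ℝ) :
    Ex (fun z : ι → α × α => F (sel J z)) = Ex F := by
  have h := Ex_sel_mul J F (fun _ => 1)
  rw [Ex_const, mul_one] at h
  rw [← h]
  congr 1
  funext z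
  rw [mul_one]

/-- `u` depends only on the coordinates in `J`. -/
def Dep {β γ : Type} (J : ι → Prop) (u : (ι → β) → γ) : Prop :=
  ∀ x y, (∀ i, J i → x i = y i) → u x = u y

theorem indep [Nonempty α] {J K : ι → Prop} {u v : (ι → α) → ℝ} (hu : Dep J u) (hv : Dep K v)
    (hd : ∀ i, J i → ¬ K i) : Ex (fun x => u x * v x) = Ex u * Ex v := by
  rw [← Ex_sel J (fun x => u x * v x)]
  rw [← Ex_sel_mul (fun _ => True) u v]
  congr 1
  funext z
  congr 1
  · apply hu
    intro i hi
    simp [sel, hi]
  · apply hv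
    intro i hi
    have : ¬ J i := fun h => hd i h hi
    simp [sel, this]

theorem Pr_indep [Nonempty α] {J K : ι → Prop} {P Q : (ι → α) → Prop} (hP : Dep J P)
    (hQ : Dep K Q) (hd : ∀ i, J i → ¬ K i) : Pr (fun x => P x ∧ Q x) = Pr P * Pr Q := by
  unfold Pr
  rw [← indep (J := J) (K := K) _ _ hd]
  · congr 1
    funext x
    exact ind_and _ _
  · intro x y h
    beta_reduce
    rw [hP x y h]
  · intro x y h
    beta_reduce
    rw [hQ x y h]

theorem Pr_compl [Nonempty α] (P : (ι → α) → Prop) : Pr P = 1 - Pr (fun x => ¬ P x) := by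
  have h1 : Ex (fun x : ι → α => ind (P x) + ind (¬ P x)) = 1 := by
    rw [← Ex_const (ι := ι) (α := α) 1]
    congr 1
    funext x
    by_cases h : P x <;> simp [ind, h]
  rw [Ex_add] at h1
  unfold Pr
  linarith

end Space

/-! ## Sums of independent functions close to a two-valued function -/

section Core

variable {ι : Type} [Fintype ι] [DecidableEq ι] {n : ℕ} (blk : ι → Fin n)
  (a : Fin n → (ι → Bool) → ℝ)

omit [Fintype ι] [DecidableEq ι] in
theorem dep_sum (hdep : ∀ j, Dep (fun i => blk i = j) (a j)) (J : Finset (Fin n)) :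
    Dep (fun i => blk i ∈ J) (fun x => ∑ j ∈ J, a j x) := by
  intro x y h
  apply Finset.sum_congr rfl
  intro j hj
  apply hdep j
  intro i hi
  apply h
  show blk i ∈ J
  rw [show blk i = j from hi]
  exact hj

theorem var_sum (hdep : ∀ j, Dep (fun i => blk i = j) (a j)) (hmean : ∀ j, Ex (a j) = 0)
    (J : Finset (Fin n)) :
    Ex (fun x => (∑ j ∈ J, a j x) ^ 2) = ∑ j ∈ J, Ex (fun x => (a j x) ^ 2) := by
  induction J using Finset.induction_on with
  | empty => simp [Ex]
  | insert j J hj ih =>
    rw [Finset.sum_insert hj, ← ih]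
    have h1 : Ex (fun x => a j x * ∑ k ∈ J, a k x) = 0 := by
      rw [indep (hdep j) (dep_sum blk a hdep J), hmean j, zero_mul]
      intro i hi hk
      exact hj (hi ▸ hk)
    have h2 : (fun x => (∑ k ∈ insert j J, a k x) ^ 2) =
        fun x => ((a j x) ^ 2 + 2 * (a j x * ∑ k ∈ J, a k x)) + (∑ k ∈ J, a k x) ^ 2 := by
      funext x
      rw [Finset.sum_insert hj]
      ring
    rw [h2, Ex_add, Ex_add, Ex_mul_left, h1]
    ring

/-- Small case: `c` and the variance are small. -/
theorem small_case (hdep : ∀ j, Dep (fun i => blk i = j) (a j)) (hmean : ∀ j, Ex (a j) = 0)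
    (c δ : ℝ) (hc0 : 0 ≤ c) (hc : c ≤ 1 / 1024)
    (hV : ∑ j, Ex (fun x => (a j x) ^ 2) ≤ 1 / 1024) (A : (ι → Bool) → Prop)
    (hT : Ex (fun x => (ind (A x) - (c + ∑ j, a j x)) ^ 2) ≤ δ) :
    Pr (fun x => ¬ (A x ↔ ∃ j, 1 / 2 ≤ c + a j x)) ≤ 288 * δ := by
  classical
  set V := ∑ j, Ex (fun x => (a j x) ^ 2) with hVdef
  have hsq : ∀ x, 0 ≤ (ind (A x) - (c + ∑ j, a j x)) ^ 2 := fun x => sq_nonneg _
  have hδ : 0 ≤ δ := le_trans (Ex_nonneg hsq) hT
  have hVJ : ∀ J : Finset (Fin n), ∑ j ∈ J, Ex (fun x => (a j x) ^ 2) ≤ 1 / 1024 := by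
    intro J
    refine le_trans ?_ hV
    apply Finset.sum_le_univ_sum_of_nonneg
    intro j
    exact Ex_nonneg (fun x => sq_nonneg _)
  have hcheb : ∀ (J : Finset (Fin n)) (ρ : ℝ), 0 < ρ →
      ρ ^ 2 * Pr (fun x => ρ < |∑ j ∈ J, a j x|) ≤ 1 / 1024 := by
    intro J ρ hρ
    refine le_trans ?_ (hVJ J)
    rw [← var_sum blk a hdep hmean J]
    apply markov (fun x => sq_nonneg _)
    intro x hx
    rw [← sq_abs (∑ j ∈ J, a j x)]
    exact pow_le_pow_left₀ hρ.le hx.le 2
  -- first bound: events outside `A`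
  have hB : ∀ j, Pr (fun x => ∑ k ∈ univ.erase j, a k x < -(1 / 4)) ≤ 128 * δ := by
    intro j
    have hC : 1 / 2 ≤ Pr (fun x => ¬ ((1 : ℝ) / 16 < |∑ k ∈ ({j} : Finset (Fin n)), a k x|)) := by
      rw [Pr_compl]
      simp only [not_not]
      have := hcheb {j} (1 / 16) (by norm_num)
      linarith
    have hind : Pr (fun x => (∑ k ∈ univ.erase j, a k x < -(1 / 4)) ∧
        ¬ ((1 : ℝ) / 16 < |∑ k ∈ ({j} : Finset (Fin n)), a k x|)) =
        Pr (fun x => ∑ k ∈ univ.erase j, a k x < -(1 / 4)) *
        Pr (fun x => ¬ ((1 : ℝ) / 16 < |∑ k ∈ ({j} : Finset (Fin n)), a k x|)) := by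
      apply Pr_indep (J := fun i => blk i ∈ univ.erase j) (K := fun i => blk i ∈ ({j} : Finset _))
      · intro x y h
        have := dep_sum blk a hdep (univ.erase j) x y h
        simp only at this
        beta_reduce
        rw [this]
      · intro x y h
        have := dep_sum blk a hdep {j} x y h
        simp only at this
        beta_reduce
        rw [this]
      · intro i h1 h2
        simp at h1 h2
        exact h1 h2
    have hle : 1 / 64 * Pr (fun x => (∑ k ∈ univ.erase j, a k x < -(1 / 4)) ∧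
        ¬ ((1 : ℝ) / 16 < |∑ k ∈ ({j} : Finset (Fin n)), a k x|)) ≤ δ := by
      refine le_trans ?_ hT
      apply markov hsq
      rintro x ⟨h1, h2⟩
      push Not at h2
      rw [Finset.sum_singleton] at h2
      have h3 := (abs_le.mp h2).2
      have h4 : ∑ k, a k x = a j x + ∑ k ∈ univ.erase j, a k x :=
        (Finset.add_sum_erase univ (fun k => a k x) (mem_univ j)).symm
      have h5 := ind_nonneg (A x)
      have h6 : 1 / 8 ≤ ind (A x) - (c + ∑ j, a j x) := by
        rw [h4]
        linarith
      nlinarith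
    rw [hind] at hle
    have h7 := Pr_nonneg (fun x => ∑ k ∈ univ.erase j, a k x < -(1 / 4))
    nlinarith
  have hE : ∀ j, Pr (fun x => 1 / 2 ≤ c + a j x) ≤ 16 * Ex (fun x => (a j x) ^ 2) := by
    intro j
    have : 1 / 16 * Pr (fun x => 1 / 2 ≤ c + a j x) ≤ Ex (fun x => (a j x) ^ 2) := by
      apply markov (fun x => sq_nonneg _)
      intro x hx
      have : 1 / 4 ≤ a j x := by linarith
      nlinarith
    linarith
  have hgoal2 : Pr (fun x => ¬ A x ∧ ∃ j, 1 / 2 ≤ c + a j x) ≤ 18 * δ := by
    have h1 : Pr (fun x => ¬ A x ∧ ∃ j, 1 / 2 ≤ c + a j x) ≤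
        Ex (fun x => ind (¬ A x ∧ 1 / 4 ≤ c + ∑ j, a j x) +
          ∑ j, ind ((1 / 2 ≤ c + a j x) ∧ (∑ k ∈ univ.erase j, a k x < -(1 / 4)))) := by
      unfold Pr
      apply Ex_mono
      intro x
      have hsn : 0 ≤ ∑ j, ind ((1 / 2 ≤ c + a j x) ∧
          (∑ k ∈ univ.erase j, a k x < -(1 / 4))) :=
        Finset.sum_nonneg (fun j _ => ind_nonneg _)
      by_cases hx : ¬ A x ∧ ∃ j, 1 / 2 ≤ c + a j x
      · rw [ind_true hx]
        obtain ⟨hA, j, hj⟩ := hx
        by_cases hz : ∑ k ∈ univ.erase j, a k x < -(1 / 4)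
        · have h2 : ind ((1 / 2 ≤ c + a j x) ∧ (∑ k ∈ univ.erase j, a k x < -(1 / 4))) ≤
              ∑ j, ind ((1 / 2 ≤ c + a j x) ∧ (∑ k ∈ univ.erase j, a k x < -(1 / 4))) :=
            Finset.single_le_sum (f := fun j => ind ((1 / 2 ≤ c + a j x) ∧
              (∑ k ∈ univ.erase j, a k x < -(1 / 4)))) (fun j _ => ind_nonneg _) (mem_univ j)
          rw [ind_true ⟨hj, hz⟩] at h2
          have := ind_nonneg (¬ A x ∧ 1 / 4 ≤ c + ∑ j, a j x)
          linarith
        · have h4 : ∑ k, a k x = a j x + ∑ k ∈ univ.erase j, a k x :=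
            (Finset.add_sum_erase univ (fun k => a k x) (mem_univ j)).symm
          have h5 : 1 / 4 ≤ c + ∑ j, a j x := by
            rw [h4]
            push Not at hz
            linarith
          rw [ind_true ⟨hA, h5⟩]
          linarith
      · rw [ind_false hx]
        have := ind_nonneg (¬ A x ∧ 1 / 4 ≤ c + ∑ j, a j x)
        linarith
    rw [Ex_add, Ex_sum] at h1
    have h2 : Ex (fun x => ind (¬ A x ∧ 1 / 4 ≤ c + ∑ j, a j x)) ≤ 16 * δ := by
      have : 1 / 16 * Pr (fun x => ¬ A x ∧ 1 / 4 ≤ c + ∑ j, a j x) ≤ δ := by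
        refine le_trans ?_ hT
        apply markov hsq
        rintro x ⟨hA, hx⟩
        rw [ind_false hA]
        nlinarith
      unfold Pr at this
      linarith
    have h3 : ∀ j, Ex (fun x => ind ((1 / 2 ≤ c + a j x) ∧
        (∑ k ∈ univ.erase j, a k x < -(1 / 4)))) ≤ 16 * Ex (fun x => (a j x) ^ 2) * (128 * δ) := by
      intro j
      have h4 : Pr (fun x => (1 / 2 ≤ c + a j x) ∧ (∑ k ∈ univ.erase j, a k x < -(1 / 4))) =
          Pr (fun x => 1 / 2 ≤ c + a j x) *
          Pr (fun x => ∑ k ∈ univ.erase j, a k x < -(1 / 4)) := by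
        apply Pr_indep (J := fun i => blk i = j) (K := fun i => blk i ∈ univ.erase j)
        · intro x y h
          beta_reduce
          rw [hdep j x y h]
        · intro x y h
          have := dep_sum blk a hdep (univ.erase j) x y h
          simp only at this
          beta_reduce
          rw [this]
        · intro i h1 h2
          simp at h2
          exact h2 h1
      unfold Pr at h4
      rw [h4]
      exact mul_le_mul (hE j) (hB j) (Pr_nonneg _)
        (by have := Ex_nonneg (fun x => sq_nonneg (a j x)); linarith)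
    have h5 : ∑ j, Ex (fun x => ind ((1 / 2 ≤ c + a j x) ∧
        (∑ k ∈ univ.erase j, a k x < -(1 / 4)))) ≤ 2 * δ := by
      refine le_trans (Finset.sum_le_sum (fun j _ => h3 j)) ?_
      rw [← Finset.sum_mul, ← Finset.mul_sum]
      nlinarith
    linarith
  -- second bound: part of `A` outside the events
  have hgoal1 : Pr (fun x => A x ∧ ∀ j, c + a j x < 1 / 2) ≤ 144 * δ := by
    let F : ℕ → Finset (Fin n) := fun t => univ.filter (fun j => j.val < t)
    let R : ℕ → Finset (Fin n) := fun t => univ.filter (fun j => ¬ j.val < t)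
    let S : ℕ → (ι → Bool) → ℝ := fun t x => c + ∑ j ∈ F t, a j x
    let G : ℕ → (ι → Bool) → Prop := fun t x =>
      (1 / 4 ≤ S t x ∧ S t x < 3 / 4) ∧ ∀ s < t, S s x < 1 / 4
    have hST : ∀ t x, S t x + ∑ j ∈ R t, a j x = c + ∑ j, a j x := by
      intro t x
      have := Finset.sum_filter_add_sum_filter_not (univ : Finset (Fin n)) (fun j => j.val < t)
        (fun j => a j x)
      simp only [S, F, R]
      linarith
    have hGdep : ∀ t, Dep (fun i => blk i ∈ F t) (G t) := by
      intro t x y h
      have hS : ∀ s ≤ t, S s x = S s y := by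
        intro s hs
        have := dep_sum blk a hdep (F s) x y (fun i hi => h i (by
          simp only [F, mem_filter, mem_univ, true_and] at hi ⊢
          omega))
        simp only at this
        simp only [S]
        rw [this]
      have h1 : (∀ s < t, S s x < 1 / 4) = (∀ s < t, S s y < 1 / 4) := by
        apply propext
        constructor
        · intro h s hs
          rw [← hS s hs.le]
          exact h s hs
        · intro h s hs
          rw [hS s hs.le]
          exact h s hs
      simp only [G]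
      rw [hS t le_rfl, h1]
    have hRdep : ∀ t, Dep (fun i => blk i ∈ R t) (fun x => ¬ ((1 : ℝ) / 8 < |∑ j ∈ R t, a j x|)) := by
      intro t x y h
      have := dep_sum blk a hdep (R t) x y h
      simp only at this
      simp only
      rw [this]
    have hGt : ∀ t, Pr (G t) ≤ 2 * Pr (fun x => G t x ∧ ¬ ((1 : ℝ) / 8 < |∑ j ∈ R t, a j x|)) := by
      intro t
      rw [Pr_indep (hGdep t) (hRdep t)]
      · have h1 := hcheb (R t) (1 / 8) (by norm_num)
        have h2 : 1 / 2 ≤ Pr (fun x => ¬ ((1 : ℝ) / 8 < |∑ j ∈ R t, a j x|)) := by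
          rw [Pr_compl]
          simp only [not_not]
          linarith
        have h3 := Pr_nonneg (G t)
        nlinarith
      · intro i h1 h2
        simp only [F, R, mem_filter, mem_univ, true_and] at h1 h2
        exact h2 h1
    have hsumG : ∑ t ∈ range (n + 1), Pr (G t) ≤ 128 * δ := by
      have h1 : ∑ t ∈ range (n + 1), Pr (fun x => G t x ∧ ¬ ((1 : ℝ) / 8 < |∑ j ∈ R t, a j x|)) ≤
          Pr (fun x => 1 / 8 ≤ c + ∑ j, a j x ∧ c + ∑ j, a j x ≤ 7 / 8) := by
        unfold Pr
        rw [← Ex_sum]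
        apply Ex_mono
        intro x
        by_cases hex : ∃ t ∈ range (n + 1), G t x ∧ ¬ ((1 : ℝ) / 8 < |∑ j ∈ R t, a j x|)
        · obtain ⟨t, ht, hG, hR⟩ := hex
          have huniq : ∀ s ∈ range (n + 1), s ≠ t →
              ind (G s x ∧ ¬ ((1 : ℝ) / 8 < |∑ j ∈ R s, a j x|)) = 0 := by
            intro s _ hst
            apply ind_false
            rintro ⟨hGs, _⟩
            rcases lt_or_gt_of_ne hst with h | h
            · have := hG.2 s h
              have := hGs.1.1
              linarith
            · have := hGs.2 t h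
              have := hG.1.1
              linarith
          rw [Finset.sum_eq_single_of_mem t ht huniq, ind_true ⟨hG, hR⟩, ind_true]
          beta_reduce
          rw [← hST t x]
          push Not at hR
          have h3 := abs_le.mp hR
          obtain ⟨⟨h4, h5⟩, _⟩ := hG
          constructor <;> linarith
        · push Not at hex
          rw [Finset.sum_eq_zero]
          · exact ind_nonneg _
          · intro t ht
            apply ind_false
            rintro ⟨h1, h2⟩
            exact h2 (hex t ht h1)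
      have h2 : 1 / 64 * Pr (fun x => 1 / 8 ≤ c + ∑ j, a j x ∧ c + ∑ j, a j x ≤ 7 / 8) ≤ δ := by
        refine le_trans ?_ hT
        apply markov hsq
        rintro x ⟨h3, h4⟩
        rcases ind_or01 (A x) with h | h <;> rw [h] <;> nlinarith
      have h3 : ∑ t ∈ range (n + 1), Pr (G t) ≤
          2 * ∑ t ∈ range (n + 1), Pr (fun x => G t x ∧ ¬ ((1 : ℝ) / 8 < |∑ j ∈ R t, a j x|)) := by
        rw [Finset.mul_sum]
        exact Finset.sum_le_sum (fun t _ => hGt t)
      linarith
    have h1 : Pr (fun x => A x ∧ ∀ j, c + a j x < 1 / 2) ≤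
        Ex (fun x => ind (A x ∧ c + ∑ j, a j x < 3 / 4) + ∑ t ∈ range (n + 1), ind (G t x)) := by
      unfold Pr
      apply Ex_mono
      intro x
      have hsn : 0 ≤ ∑ t ∈ range (n + 1), ind (G t x) :=
        Finset.sum_nonneg (fun j _ => ind_nonneg _)
      by_cases hx : A x ∧ ∀ j, c + a j x < 1 / 2
      · rw [ind_true hx]
        obtain ⟨hA, hj⟩ := hx
        by_cases hz : c + ∑ j, a j x < 3 / 4
        · rw [ind_true ⟨hA, hz⟩]
          linarith
        · have hFn : F n = univ := by
            ext j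
            simp [F]
          have hex : ∃ t, 1 / 4 ≤ S t x := by
            refine ⟨n, ?_⟩
            simp only [S, hFn]
            push Not at hz
            linarith
          set t := Nat.find hex with ht
          have h2 : 1 / 4 ≤ S t x := Nat.find_spec hex
          have htn : t ≤ n := by
            apply Nat.find_min'
            simp only [S, hFn]
            push Not at hz
            linarith
          have h3 : ∀ s < t, S s x < 1 / 4 := by
            intro s hs
            have := Nat.find_min hex hs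
            push Not at this
            exact this
          have ht0 : t ≠ 0 := by
            intro h0
            rw [h0] at h2
            simp [S, F] at h2
            linarith
          obtain ⟨t', ht'⟩ : ∃ t', t = t' + 1 := ⟨t - 1, by omega⟩
          have hlt : t' < n := by omega
          have hF : F t = insert ⟨t', hlt⟩ (F t') := by
            ext j
            simp only [F, mem_filter, mem_univ, true_and, mem_insert, ht', Fin.ext_iff]
            omega
          have h4 : S t x = S t' x + a ⟨t', hlt⟩ x := by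
            simp only [S]
            rw [hF, Finset.sum_insert]
            · ring
            · simp [F]
          have h5 := h3 t' (by omega)
          have h6 := hj ⟨t', hlt⟩
          have hG : G t x := by
            refine ⟨⟨h2, ?_⟩, h3⟩
            rw [h4]
            linarith
          have h7 : ind (G t x) ≤ ∑ t ∈ range (n + 1), ind (G t x) :=
            Finset.single_le_sum (f := fun t => ind (G t x)) (fun j _ => ind_nonneg _)
              (by simp; omega)
          rw [ind_true hG] at h7
          have := ind_nonneg (A x ∧ c + ∑ j, a j x < 3 / 4)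
          linarith
      · rw [ind_false hx]
        have := ind_nonneg (A x ∧ c + ∑ j, a j x < 3 / 4)
        linarith
    rw [Ex_add, Ex_sum] at h1
    have h2 : Ex (fun x => ind (A x ∧ c + ∑ j, a j x < 3 / 4)) ≤ 16 * δ := by
      have : 1 / 16 * Pr (fun x => A x ∧ c + ∑ j, a j x < 3 / 4) ≤ δ := by
        refine le_trans ?_ hT
        apply markov hsq
        rintro x ⟨hA, hx⟩
        rw [ind_true hA]
        nlinarith
      unfold Pr at this
      linarith
    have h3 : ∑ t ∈ range (n + 1), Ex (fun x => ind (G t x)) ≤ 128 * δ := hsumG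
    linarith
  have hfin : Pr (fun x => ¬ (A x ↔ ∃ j, 1 / 2 ≤ c + a j x)) ≤
      Ex (fun x => ind (¬ A x ∧ ∃ j, 1 / 2 ≤ c + a j x) +
        ind (A x ∧ ∀ j, c + a j x < 1 / 2)) := by
    unfold Pr
    apply Ex_mono
    intro x
    by_cases hA : A x
    · by_cases hj : ∃ j, 1 / 2 ≤ c + a j x
      · rw [ind_false (fun h => h ⟨fun _ => hj, fun _ => hA⟩)]
        have := ind_nonneg (¬ A x ∧ ∃ j, 1 / 2 ≤ c + a j x)
        have := ind_nonneg (A x ∧ ∀ j, c + a j x < 1 / 2)
        linarith
      · have hj' : ∀ j, c + a j x < 1 / 2 := by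
          intro j
          by_contra h
          exact hj ⟨j, by linarith⟩
        rw [ind_true (P := A x ∧ ∀ j, c + a j x < 1 / 2) ⟨hA, hj'⟩]
        have := ind_nonneg (¬ A x ∧ ∃ j, 1 / 2 ≤ c + a j x)
        have := ind_le_one (¬ (A x ↔ ∃ j, 1 / 2 ≤ c + a j x))
        linarith
    · by_cases hj : ∃ j, 1 / 2 ≤ c + a j x
      · rw [ind_true (P := ¬ A x ∧ ∃ j, 1 / 2 ≤ c + a j x) ⟨hA, hj⟩]
        have := ind_nonneg (A x ∧ ∀ j, c + a j x < 1 / 2)
        have := ind_le_one (¬ (A x ↔ ∃ j, 1 / 2 ≤ c + a j x))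
        linarith
      · rw [ind_false (by simp only [hA, hj]; simp)]
        have := ind_nonneg (¬ A x ∧ ∃ j, 1 / 2 ≤ c + a j x)
        have := ind_nonneg (A x ∧ ∀ j, c + a j x < 1 / 2)
        linarith
  rw [Ex_add] at hfin
  unfold Pr at hgoal1 hgoal2
  linarith

theorem Ex_sumJ (hmean : ∀ j, Ex (a j) = 0) (J : Finset (Fin n)) :
    Ex (fun x => ∑ j ∈ J, a j x) = 0 := by
  rw [Ex_sum]
  exact Finset.sum_eq_zero (fun j _ => hmean j)

/-- For every splitting of the blocks into two groups one of the two partial sums has a small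
variance. -/
theorem split_case (hdep : ∀ j, Dep (fun i => blk i = j) (a j)) (hmean : ∀ j, Ex (a j) = 0)
    (c δ : ℝ) (A : (ι → Bool) → Prop)
    (hT : Ex (fun x => (ind (A x) - (c + ∑ j, a j x)) ^ 2) ≤ δ) (J : Finset (Fin n)) :
    ∃ p q : ℝ, 0 ≤ p ∧ 0 ≤ q ∧ p * q ≤ 256 * δ ∧
      ∑ j ∈ J, Ex (fun x => (a j x) ^ 2) ≤ p + 4 * δ ∧
      ∑ j ∈ Jᶜ, Ex (fun x => (a j x) ^ 2) ≤ q + 4 * δ := by
  classical
  set e : (ι → Bool) → ℝ := fun x => ind (A x) - (c + ∑ j, a j x) with he
  let K : ι → Prop := fun i => blk i ∈ J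
  let U : Finset (Fin n) → (ι → Bool) → ℝ := fun J x => ∑ j ∈ J, a j x
  let X : (ι → Bool × Bool) → (ι → Bool) := fun z => sel (fun _ => True) z
  let Y : (ι → Bool × Bool) → (ι → Bool) := fun z => sel (fun _ => ¬ True) z
  let M : (ι → Bool × Bool) → (ι → Bool) := fun z => sel K z
  let N : (ι → Bool × Bool) → (ι → Bool) := fun z => sel (fun i => ¬ K i) z
  have hX : ∀ z i, X z i = (z i).1 := fun z i => by simp [X, sel]
  have hY : ∀ z i, Y z i = (z i).2 := fun z i => by simp [Y, sel]
  have hUM : ∀ z, U J (M z) = U J (X z) := by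
    intro z
    apply dep_sum blk a hdep J
    intro i hi
    have hi' : K i := hi
    simp [M, sel, hi', hX]
  have hUN : ∀ z, U J (N z) = U J (Y z) := by
    intro z
    apply dep_sum blk a hdep J
    intro i hi
    have hi' : K i := hi
    simp [N, sel, hi', hY]
  have hUM' : ∀ z, U Jᶜ (M z) = U Jᶜ (Y z) := by
    intro z
    apply dep_sum blk a hdep Jᶜ
    intro i hi
    have hi' : ¬ K i := Finset.mem_compl.mp hi
    simp [M, sel, hi', hY]
  have hUN' : ∀ z, U Jᶜ (N z) = U Jᶜ (X z) := by
    intro z
    apply dep_sum blk a hdep Jᶜ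
    intro i hi
    have hi' : ¬ K i := Finset.mem_compl.mp hi
    simp [N, sel, hi', hX]
  have hTU : ∀ x, c + ∑ j, a j x = c + U J x + U Jᶜ x := by
    intro x
    simp only [U]
    rw [add_assoc, Finset.sum_add_sum_compl]
  have heU : ∀ x, ind (A x) = e x + (c + U J x + U Jᶜ x) := by
    intro x
    rw [he, ← hTU x]
    ring
  have hEe : ∀ L : ι → Prop, Ex (fun z : ι → Bool × Bool => (e (sel L z)) ^ 2) ≤ δ := by
    intro L
    rw [Ex_sel L (fun x => (e x) ^ 2)]
    exact hT
  have hEX : Ex (fun z => (e (X z)) ^ 2) ≤ δ := hEe _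
  have hEY : Ex (fun z => (e (Y z)) ^ 2) ≤ δ := hEe _
  have hEM : Ex (fun z => (e (M z)) ^ 2) ≤ δ := hEe _
  have hEN : Ex (fun z => (e (N z)) ^ 2) ≤ δ := hEe _
  let G : (ι → Bool × Bool) → Prop := fun z => 1 / 2 ≤ |U J (Y z) - U J (X z)|
  let G' : (ι → Bool × Bool) → Prop := fun z => 1 / 2 ≤ |U Jᶜ (Y z) - U Jᶜ (X z)|
  have hvar : ∀ J' : Finset (Fin n), Ex (fun z : ι → Bool × Bool =>
      (U J' (Y z) - U J' (X z)) ^ 2) = 2 * ∑ j ∈ J', Ex (fun x => (a j x) ^ 2) := by
    intro J'
    have h1 : (fun z : ι → Bool × Bool => (U J' (Y z) - U J' (X z)) ^ 2) =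
        fun z => ((U J' (X z)) ^ 2 + (U J' (Y z)) ^ 2) - 2 * (U J' (X z) * U J' (Y z)) := by
      funext z
      ring
    rw [h1, Ex_sub, Ex_add, Ex_mul_left]
    have h2 : Ex (fun z : ι → Bool × Bool => U J' (X z) * U J' (Y z)) = 0 := by
      have := Ex_sel_mul (fun _ : ι => True) (U J') (U J')
      simp only [X, Y]
      rw [this]
      simp only [U]
      rw [Ex_sumJ a hmean J', zero_mul]
    have h3 : Ex (fun z : ι → Bool × Bool => (U J' (X z)) ^ 2) =
        ∑ j ∈ J', Ex (fun x => (a j x) ^ 2) := by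
      rw [← var_sum blk a hdep hmean J']
      exact Ex_sel _ (fun x => (U J' x) ^ 2)
    have h4 : Ex (fun z : ι → Bool × Bool => (U J' (Y z)) ^ 2) =
        ∑ j ∈ J', Ex (fun x => (a j x) ^ 2) := by
      rw [← var_sum blk a hdep hmean J']
      exact Ex_sel _ (fun x => (U J' x) ^ 2)
    rw [h2, h3, h4]
    ring
  have hpt : ∀ (o o' η η' d : ℝ) (P : Prop), (o = 0 ∨ o = 1) → (o' = 0 ∨ o' = 1) →
      d = (o' - o) - (η' - η) → (P ↔ 1 / 2 ≤ |d|) → d ^ 2 ≤ 2 * ind P + (4 * η ^ 2 + 4 * η' ^ 2) := by
    intro o o' η η' d P ho ho' hd hP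
    have hη : (η' - η) ^ 2 ≤ 2 * η ^ 2 + 2 * η' ^ 2 := by nlinarith [sq_nonneg (η + η')]
    by_cases h : P
    · rw [ind_true h]
      rcases ho with h1 | h1 <;> rcases ho' with h2 | h2 <;> subst h1 <;> subst h2 <;>
        rw [hd] <;> nlinarith [sq_nonneg ((η' - η) + 1), sq_nonneg ((η' - η) - 1)]
    · rw [ind_false h]
      rw [hP] at h
      push Not at h
      have h3 := abs_lt.mp h
      rcases ho with h1 | h1 <;> rcases ho' with h2 | h2 <;> subst h1 <;> subst h2 <;>
        nlinarith
  refine ⟨Pr G, Pr G', Pr_nonneg _, Pr_nonneg _, ?_, ?_, ?_⟩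
  · have h1 : Pr (fun z => G z ∧ G' z) = Pr G * Pr G' := by
      apply Pr_indep (J := K) (K := fun i => ¬ K i)
      · intro z z' h
        have h2 : U J (X z) = U J (X z') := by
          apply dep_sum blk a hdep J
          intro i hi
          rw [hX, hX, h i hi]
        have h3 : U J (Y z) = U J (Y z') := by
          apply dep_sum blk a hdep J
          intro i hi
          rw [hY, hY, h i hi]
        simp only [G]
        rw [h2, h3]
      · intro z z' h
        have h2 : U Jᶜ (X z) = U Jᶜ (X z') := by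
          apply dep_sum blk a hdep Jᶜ
          intro i hi
          rw [hX, hX, h i (Finset.mem_compl.mp hi)]
        have h3 : U Jᶜ (Y z) = U Jᶜ (Y z') := by
          apply dep_sum blk a hdep Jᶜ
          intro i hi
          rw [hY, hY, h i (Finset.mem_compl.mp hi)]
        simp only [G']
        rw [h2, h3]
      · intro i h1 h2
        exact h2 h1
    have h2 : 1 / 64 * Pr (fun z => G z ∧ G' z) ≤
        Ex (fun z => ((e (X z)) ^ 2 + (e (Y z)) ^ 2) + ((e (M z)) ^ 2 + (e (N z)) ^ 2)) := by
      apply markov (fun z => by positivity)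
      rintro z ⟨hG, hG'⟩
      by_contra hcon
      push Not at hcon
      have b1 : |e (X z)| < 1 / 8 := by
        rw [abs_lt]
        constructor <;> nlinarith [sq_nonneg (e (X z)), sq_nonneg (e (Y z)), sq_nonneg (e (M z)),
          sq_nonneg (e (N z))]
      have b2 : |e (Y z)| < 1 / 8 := by
        rw [abs_lt]
        constructor <;> nlinarith [sq_nonneg (e (X z)), sq_nonneg (e (Y z)), sq_nonneg (e (M z)),
          sq_nonneg (e (N z))]
      have b3 : |e (M z)| < 1 / 8 := by
        rw [abs_lt]
        constructor <;> nlinarith [sq_nonneg (e (X z)), sq_nonneg (e (Y z)), sq_nonneg (e (M z)),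
          sq_nonneg (e (N z))]
      have b4 : |e (N z)| < 1 / 8 := by
        rw [abs_lt]
        constructor <;> nlinarith [sq_nonneg (e (X z)), sq_nonneg (e (Y z)), sq_nonneg (e (M z)),
          sq_nonneg (e (N z))]
      have e1 := heU (X z)
      have e2 := heU (Y z)
      have e3 := heU (M z)
      have e4 := heU (N z)
      rw [hUM, hUM'] at e3
      rw [hUN, hUN'] at e4
      rw [abs_lt] at b1 b2 b3 b4
      have g1 : 1 / 2 ≤ U J (Y z) - U J (X z) ∨ U J (Y z) - U J (X z) ≤ -(1 / 2) := by
        rcases le_abs.mp hG with h | h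
        · left; exact h
        · right; linarith
      have g2 : 1 / 2 ≤ U Jᶜ (Y z) - U Jᶜ (X z) ∨ U Jᶜ (Y z) - U Jᶜ (X z) ≤ -(1 / 2) := by
        rcases le_abs.mp hG' with h | h
        · left; exact h
        · right; linarith
      rcases ind_or01 (A (X z)) with o1 | o1 <;> rcases ind_or01 (A (Y z)) with o2 | o2 <;>
        rcases ind_or01 (A (M z)) with o3 | o3 <;> rcases ind_or01 (A (N z)) with o4 | o4 <;>
        rw [o1] at e1 <;> rw [o2] at e2 <;> rw [o3] at e3 <;> rw [o4] at e4 <;>
        rcases g1 with g1 | g1 <;> rcases g2 with g2 | g2 <;> linarith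
    rw [Ex_add, Ex_add, Ex_add, h1] at h2
    linarith
  · have h1 : Ex (fun z : ι → Bool × Bool => (U J (Y z) - U J (X z)) ^ 2) ≤
        Ex (fun z => 2 * ind (G z) + (4 * (e (X z)) ^ 2 + 4 * (e (N z)) ^ 2)) := by
      apply Ex_mono
      intro z
      apply hpt (ind (A (X z))) (ind (A (N z))) _ _ _ _ (ind_or01 _) (ind_or01 _) _ Iff.rfl
      rw [heU (X z), heU (N z), hUN, hUN']
      ring
    rw [hvar J, Ex_add, Ex_add, Ex_mul_left, Ex_mul_left, Ex_mul_left] at h1
    unfold Pr
    linarith
  · have h1 : Ex (fun z : ι → Bool × Bool => (U Jᶜ (Y z) - U Jᶜ (X z)) ^ 2) ≤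
        Ex (fun z => 2 * ind (G' z) + (4 * (e (X z)) ^ 2 + 4 * (e (M z)) ^ 2)) := by
      apply Ex_mono
      intro z
      apply hpt (ind (A (X z))) (ind (A (M z))) _ _ _ _ (ind_or01 _) (ind_or01 _) _ Iff.rfl
      rw [heU (X z), heU (M z), hUM, hUM']
      ring
    rw [hvar Jᶜ, Ex_add, Ex_add, Ex_mul_left, Ex_mul_left, Ex_mul_left] at h1
    unfold Pr
    linarith

/-- Large case: if the variance is at least `1/4096`, one summand carries nearly everything. -/
theorem large_case (hdep : ∀ j, Dep (fun i => blk i = j) (a j)) (hmean : ∀ j, Ex (a j) = 0)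
    (c δ : ℝ) (hδ : δ ≤ 1 / 65536)
    (hV : 1 / 4096 ≤ ∑ j, Ex (fun x => (a j x) ^ 2)) (A : (ι → Bool) → Prop)
    (hT : Ex (fun x => (ind (A x) - (c + ∑ j, a j x)) ^ 2) ≤ δ) :
    ∃ t, Pr (fun x => ¬ (A x ↔ 1 / 2 ≤ c + a t x)) ≤ 67108936 * δ := by
  classical
  have hδ0 : 0 ≤ δ := le_trans (Ex_nonneg (fun x => sq_nonneg _)) hT
  set v : Fin n → ℝ := fun j => Ex (fun x => (a j x) ^ 2) with hv
  have hv0 : ∀ j, 0 ≤ v j := fun j => Ex_nonneg (fun x => sq_nonneg _)
  set V := ∑ j, v j with hVdef
  have hsplit : ∀ J : Finset (Fin n), ∑ j ∈ J, v j ≤ 4194308 * δ ∨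
      V - ∑ j ∈ J, v j ≤ 4194308 * δ := by
    intro J
    obtain ⟨p, q, hp, hq, hpq, h1, h2⟩ := split_case blk a hdep hmean c δ A hT J
    have h3 : ∑ j ∈ J, v j + ∑ j ∈ Jᶜ, v j = V := Finset.sum_add_sum_compl J v
    have h1' : ∑ j ∈ J, v j ≤ p + 4 * δ := h1
    have h2' : ∑ j ∈ Jᶜ, v j ≤ q + 4 * δ := h2
    by_cases hp' : 1 / 16384 ≤ p
    · right
      have : q ≤ 4194304 * δ := by nlinarith
      linarith
    · left
      push Not at hp'
      have hq' : 1 / 16384 ≤ q := by linarith
      have : p ≤ 4194304 * δ := by nlinarith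
      linarith
  have hn : 0 < n := by
    by_contra h
    have h0 : n = 0 := by omega
    subst h0
    simp [hVdef] at hV
    norm_num at hV
  have key : ∃ t, V - v t ≤ 8388616 * δ := by
    let F : ℕ → Finset (Fin n) := fun t => univ.filter (fun j => j.val < t)
    have hFn : F n = univ := by
      ext j
      simp [F]
    by_cases hbig : 4194308 * δ < V
    · have hex : ∃ t, 4194308 * δ < ∑ j ∈ F t, v j := ⟨n, by rw [hFn]; exact hbig⟩
      set t := Nat.find hex with ht
      have h2 : 4194308 * δ < ∑ j ∈ F t, v j := Nat.find_spec hex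
      have htn : t ≤ n := Nat.find_min' hex (by rw [hFn]; exact hbig)
      have ht0 : t ≠ 0 := by
        intro h0
        rw [h0] at h2
        simp [F] at h2
        linarith
      obtain ⟨t', ht'⟩ : ∃ t', t = t' + 1 := ⟨t - 1, by omega⟩
      have hlt : t' < n := by omega
      have h3 : ∑ j ∈ F t', v j ≤ 4194308 * δ := by
        have := Nat.find_min hex (m := t') (by omega)
        push Not at this
        exact this
      have hF : F t = insert ⟨t', hlt⟩ (F t') := by
        ext j
        simp only [F, mem_filter, mem_univ, true_and, mem_insert, ht', Fin.ext_iff]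
        omega
      have h4 : ∑ j ∈ F t, v j = v ⟨t', hlt⟩ + ∑ j ∈ F t', v j := by
        rw [hF, Finset.sum_insert]
        simp [F]
      refine ⟨⟨t', hlt⟩, ?_⟩
      rcases hsplit (F t) with h5 | h5
      · linarith
      · linarith
    · refine ⟨⟨0, hn⟩, ?_⟩
      have := hv0 ⟨0, hn⟩
      linarith
  obtain ⟨t, ht⟩ := key
  refine ⟨t, ?_⟩
  have h1 : Ex (fun x => (ind (A x) - (c + a t x)) ^ 2) ≤ 2 * δ + 2 * (8388616 * δ) := by
    have h2 : Ex (fun x => (ind (A x) - (c + a t x)) ^ 2) ≤
        Ex (fun x => 2 * (ind (A x) - (c + ∑ j, a j x)) ^ 2 +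
          2 * (∑ j ∈ univ.erase t, a j x) ^ 2) := by
      apply Ex_mono
      intro x
      have h4 : ∑ k, a k x = a t x + ∑ k ∈ univ.erase t, a k x :=
        (Finset.add_sum_erase univ (fun k => a k x) (mem_univ t)).symm
      rw [h4]
      nlinarith [sq_nonneg ((ind (A x) - (c + (a t x + ∑ k ∈ univ.erase t, a k x))) -
        (∑ j ∈ univ.erase t, a j x))]
    rw [Ex_add, Ex_mul_left, Ex_mul_left, var_sum blk a hdep hmean] at h2
    have h3 : ∑ j ∈ univ.erase t, Ex (fun x => (a j x) ^ 2) = V - v t := by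
      have := Finset.add_sum_erase univ v (mem_univ t)
      simp only [hv] at this
      linarith
    rw [h3] at h2
    linarith
  have h2 : 1 / 4 * Pr (fun x => ¬ (A x ↔ 1 / 2 ≤ c + a t x)) ≤
      Ex (fun x => (ind (A x) - (c + a t x)) ^ 2) := by
    apply markov (fun x => sq_nonneg _)
    intro x hx
    by_cases hA : A x
    · have : ¬ (1 / 2 ≤ c + a t x) := fun h => hx ⟨fun _ => h, fun _ => hA⟩
      rw [ind_true hA]
      push Not at this
      nlinarith
    · have : 1 / 2 ≤ c + a t x := by
        by_contra h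
        exact hx ⟨fun h' => absurd h' hA, fun h' => absurd h' h⟩
      rw [ind_false hA]
      nlinarith
  linarith

end Core

/-! ## Fourier expansion and the result -/

section Fourier

variable {m n : ℕ}

/-- The sign of a bit: `true` is `-1` and `false` is `1`. -/
def sg (b : Bool) : ℝ := if b then -1 else 1

/-- The character `χ_S`. -/
def chi (S : Finset (Fin m)) (x : Fin m → Bool) : ℝ := ∏ i ∈ S, sg (x i)

/-- The Fourier coefficient of (the `±1`-valued version of) `f` at `S`. -/
noncomputable def fhat (f : (Fin m → Bool) → Bool) (S : Finset (Fin m)) : ℝ :=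
  Ex (fun x => sg (f x) * chi S x)

open scoped Classical in
/-- `f` is `ε`-concentrated on the partition into the blocks `blk ⁻¹ (j)`: the Fourier weight
on the sets contained in a block is at least `1 - ε`. -/
def Concentrated (blk : Fin m → Fin n) (ε : ℝ) (f : (Fin m → Bool) → Bool) : Prop :=
  1 - ε ≤ ∑ S ∈ univ.filter (fun S : Finset (Fin m) => ∃ j, ∀ i ∈ S, blk i = j), (fhat f S) ^ 2

/-- The squared `L_2` distance of the `±1`-valued versions of two Boolean functions. -/
noncomputable def dist2 (f g : (Fin m → Bool) → Bool) : ℝ :=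
  Ex (fun x => (sg (f x) - sg (g x)) ^ 2)

open scoped Classical in
/-- The OR of Boolean functions of the blocks. -/
noncomputable def orOf (blk : Fin m → Fin n) (h : ∀ j : Fin n, ({i // blk i = j} → Bool) → Bool)
    (x : Fin m → Bool) : Bool := decide (∃ j, h j (fun i => x i.1) = true)

open scoped Classical in
/-- The AND of Boolean functions of the blocks. -/
noncomputable def andOf (blk : Fin m → Fin n) (h : ∀ j : Fin n, ({i // blk i = j} → Bool) → Bool)
    (x : Fin m → Bool) : Bool := decide (∀ j, h j (fun i => x i.1) = true)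

theorem sg_mul_self (b : Bool) : sg b * sg b = 1 := by cases b <;> simp [sg]

theorem sg_not (b : Bool) : sg (!b) = -sg b := by cases b <;> simp [sg]

theorem sg_ne (p q : Bool) (h : p ≠ q) : (sg p - sg q) ^ 2 = 4 := by
  cases p <;> cases q
  · exact absurd rfl h
  · simp [sg]; norm_num
  · simp [sg]; norm_num
  · exact absurd rfl h

theorem chi_mul (S T : Finset (Fin m)) :
    Ex (fun x => chi S x * chi T x) = if S = T then 1 else 0 := by
  classical
  have h1 : ∀ (S : Finset (Fin m)) x, chi S x = ∏ i, (if i ∈ S then sg (x i) else 1) := by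
    intro S x
    unfold chi
    rw [Finset.prod_ite_mem]
    simp
  by_cases hST : S = T
  · subst hST
    rw [if_pos rfl]
    rw [← Ex_const (ι := Fin m) (α := Bool) 1]
    congr 1
    funext x
    unfold chi
    rw [← Finset.prod_mul_distrib]
    exact Finset.prod_eq_one (fun i _ => sg_mul_self _)
  · rw [if_neg hST]
    have hex : ∃ i, ¬ (i ∈ S ↔ i ∈ T) := by
      by_contra hcon
      push Not at hcon
      exact hST (Finset.ext hcon)
    obtain ⟨i, hi⟩ := hex
    unfold Ex
    have h2 : ∑ x : Fin m → Bool, chi S x * chi T x =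
        ∏ i, ∑ b : Bool, (if i ∈ S then sg b else 1) * (if i ∈ T then sg b else 1) := by
      rw [Finset.prod_univ_sum, Fintype.piFinset_univ]
      apply Finset.sum_congr rfl
      intro x _
      rw [h1 S x, h1 T x, ← Finset.prod_mul_distrib]
    rw [h2, Finset.prod_eq_zero (mem_univ i), zero_div]
    by_cases hS : i ∈ S
    · have hT : i ∉ T := fun h => hi ⟨fun _ => h, fun _ => hS⟩
      simp [hS, hT, sg]
    · have hT : i ∈ T := by
        by_contra h
        exact hi ⟨fun h' => absurd h' hS, fun h' => absurd h' h⟩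
      simp [hS, hT, sg]

theorem Ex_expansion_sq (B : Finset (Finset (Fin m))) (w : Finset (Fin m) → ℝ) :
    Ex (fun x => (∑ S ∈ B, w S * chi S x) ^ 2) = ∑ S ∈ B, (w S) ^ 2 := by
  classical
  have h1 : (fun x : Fin m → Bool => (∑ S ∈ B, w S * chi S x) ^ 2) =
      fun x => ∑ S ∈ B, ∑ T ∈ B, (w S * w T) * (chi S x * chi T x) := by
    funext x
    rw [sq, Finset.sum_mul_sum]
    apply Finset.sum_congr rfl
    intro S _
    apply Finset.sum_congr rfl
    intro T _
    ring
  rw [h1, Ex_sum]
  apply Finset.sum_congr rfl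
  intro S hS
  rw [Ex_sum, Finset.sum_eq_single_of_mem S hS]
  · rw [Ex_mul_left, chi_mul, if_pos rfl]
    ring
  · intro T _ hT
    rw [Ex_mul_left, chi_mul, if_neg (Ne.symm hT), mul_zero]

theorem main_half (blk : Fin m → Fin n) (hm : 0 < m) (ε : ℝ)
    (f : (Fin m → Bool) → Bool) (hf : Concentrated blk ε f) (hmean : 0 ≤ fhat f ∅) :
    ∃ h : ∀ j : Fin n, ({i // blk i = j} → Bool) → Bool,
      dist2 f (orOf blk h) ≤ 100000000 * ε := by
  classical
  set B := univ.filter (fun S : Finset (Fin m) => ∃ j, ∀ i ∈ S, blk i = j) with hB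
  have hj0 : ∃ j : Fin n, True := ⟨blk ⟨0, hm⟩, trivial⟩
  obtain ⟨j0, _⟩ := hj0
  let Bj : Fin n → Finset (Finset (Fin m)) := fun j =>
    univ.filter (fun S : Finset (Fin m) => S ≠ ∅ ∧ ∀ i ∈ S, blk i = j)
  have hBE : B = insert ∅ (univ.biUnion Bj) := by
    ext S
    simp only [hB, Bj, mem_filter, mem_univ, true_and, mem_insert, mem_biUnion]
    constructor
    · rintro ⟨j, hj⟩
      by_cases hS : S = ∅
      · left; exact hS
      · right; exact ⟨j, hS, hj⟩
    · rintro (h | ⟨j, _, hj⟩)
      · subst h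
        exact ⟨j0, by simp⟩
      · exact ⟨j, hj⟩
  have hdisj : ∀ i ∈ (univ : Finset (Fin n)), ∀ j ∈ (univ : Finset (Fin n)), i ≠ j →
      Disjoint (Bj i) (Bj j) := by
    intro i _ j _ hij
    rw [Finset.disjoint_left]
    intro S hS hS'
    simp only [Bj, mem_filter, mem_univ, true_and] at hS hS'
    obtain ⟨x, hx⟩ := Finset.nonempty_iff_ne_empty.mpr hS.1
    exact hij ((hS.2 x hx).symm.trans (hS'.2 x hx))
  have hempty : ∅ ∉ univ.biUnion Bj := by
    simp [Bj]
  have hsplitB : ∀ w : Finset (Fin m) → ℝ, ∑ S ∈ B, w S = w ∅ + ∑ j, ∑ S ∈ Bj j, w S := by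
    intro w
    rw [hBE, Finset.sum_insert hempty, Finset.sum_biUnion hdisj]
  set W := ∑ S ∈ B, (fhat f S) ^ 2 with hW
  have hfW : 1 - ε ≤ W := hf
  -- the block functions
  let g : Fin n → (Fin m → Bool) → ℝ := fun j x => ∑ S ∈ Bj j, fhat f S * chi S x
  let a : Fin n → (Fin m → Bool) → ℝ := fun j x => -(1 / 2) * g j x
  have hadep : ∀ j, Dep (fun i => blk i = j) (a j) := by
    intro j x y h
    simp only [a, g]
    congr 1
    apply Finset.sum_congr rfl
    intro S hS
    simp only [Bj, mem_filter, mem_univ, true_and] at hS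
    congr 1
    unfold chi
    apply Finset.prod_congr rfl
    intro i hi
    rw [h i (hS.2 i hi)]
  have hchi0 : ∀ S : Finset (Fin m), S ≠ ∅ → Ex (fun x => chi S x) = 0 := by
    intro S hS
    have := chi_mul S ∅
    rw [if_neg hS] at this
    rw [← this]
    congr 1
    funext x
    simp [chi]
  have hamean : ∀ j, Ex (a j) = 0 := by
    intro j
    simp only [a]
    rw [Ex_mul_left]
    simp only [g]
    rw [Ex_sum, Finset.sum_eq_zero, mul_zero]
    intro S hS
    simp only [Bj, mem_filter, mem_univ, true_and] at hS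
    rw [Ex_mul_left, hchi0 S hS.1, mul_zero]
  have hasq : ∀ j, Ex (fun x => (a j x) ^ 2) = 1 / 4 * ∑ S ∈ Bj j, (fhat f S) ^ 2 := by
    intro j
    rw [← Ex_expansion_sq, ← Ex_mul_left]
    congr 1
    funext x
    simp only [a, g]
    ring
  set V := ∑ j, Ex (fun x => (a j x) ^ 2) with hV
  have hVW : W = (fhat f ∅) ^ 2 + 4 * V := by
    rw [hW, hsplitB (fun S => (fhat f S) ^ 2), hV]
    simp only [hasq]
    rw [← Finset.mul_sum]
    ring
  set c := (1 - fhat f ∅) / 2 with hc
  have hsgf : Ex (fun x => sg (f x) ^ 2) = 1 := by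
    rw [← Ex_const (ι := Fin m) (α := Bool) 1]
    congr 1
    funext x
    rw [sq, sg_mul_self]
  -- distance of `f` from its block part
  have hdist : Ex (fun x => (sg (f x) - ∑ S ∈ B, fhat f S * chi S x) ^ 2) = 1 - W := by
    have h1 : (fun x : Fin m → Bool => (sg (f x) - ∑ S ∈ B, fhat f S * chi S x) ^ 2) =
        fun x => (sg (f x) ^ 2 - 2 * (∑ S ∈ B, fhat f S * (sg (f x) * chi S x))) +
          (∑ S ∈ B, fhat f S * chi S x) ^ 2 := by
      funext x
      have : ∑ S ∈ B, fhat f S * (sg (f x) * chi S x) =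
          sg (f x) * ∑ S ∈ B, fhat f S * chi S x := by
        rw [Finset.mul_sum]
        apply Finset.sum_congr rfl
        intro S _
        ring
      rw [this]
      ring
    rw [h1, Ex_add, Ex_sub, Ex_mul_left, Ex_sum, Ex_expansion_sq, hsgf]
    have h2 : ∀ S ∈ B, Ex (fun x => fhat f S * (sg (f x) * chi S x)) = (fhat f S) ^ 2 := by
      intro S _
      rw [Ex_mul_left]
      unfold fhat
      ring
    rw [Finset.sum_congr rfl h2, ← hW]
    ring
  have hW1 : W ≤ 1 := by
    have : 0 ≤ 1 - W := by
      rw [← hdist]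
      exact Ex_nonneg (fun x => sq_nonneg _)
    linarith
  let A : (Fin m → Bool) → Prop := fun x => f x = true
  have hindA : ∀ x, ind (A x) = (1 - sg (f x)) / 2 := by
    intro x
    by_cases h : f x = true
    · rw [ind_true h, h]
      simp [sg]
    · rw [ind_false h]
      have : f x = false := by simpa using h
      rw [this]
      simp [sg]
  have hTsum : ∀ x, c + ∑ j, a j x = (1 - ∑ S ∈ B, fhat f S * chi S x) / 2 := by
    intro x
    rw [hsplitB (fun S => fhat f S * chi S x)]
    simp only [a, g]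
    rw [← Finset.mul_sum, hc]
    have : chi (∅ : Finset (Fin m)) x = 1 := by simp [chi]
    rw [this]
    ring
  have hT : Ex (fun x => (ind (A x) - (c + ∑ j, a j x)) ^ 2) ≤ ε / 4 := by
    have h1 : (fun x => (ind (A x) - (c + ∑ j, a j x)) ^ 2) =
        fun x => 1 / 4 * (sg (f x) - ∑ S ∈ B, fhat f S * chi S x) ^ 2 := by
      funext x
      rw [hindA, hTsum]
      ring
    rw [h1, Ex_mul_left, hdist]
    linarith
  have hc0 : 0 ≤ c := by
    have h1 : fhat f ∅ ≤ 1 := by
      unfold fhat
      rw [← Ex_const (ι := Fin m) (α := Bool) 1]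
      apply Ex_mono
      intro x
      have : chi (∅ : Finset (Fin m)) x = 1 := by simp [chi]
      rw [this, mul_one]
      cases f x <;> simp [sg]
    rw [hc]
    linarith
  have hc1 : c ≤ 1 / 2 := by
    rw [hc]
    linarith
  have hfc : fhat f ∅ = 1 - 2 * c := by
    rw [hc]
    ring
  have hV4 : V = (W - (1 - 2 * c) ^ 2) / 4 := by
    rw [hVW, hfc]
    ring
  have hε : 0 ≤ ε := by linarith
  -- distance and probability
  have hd2 : ∀ g' : (Fin m → Bool) → Bool, dist2 f g' = 4 * Pr (fun x => f x ≠ g' x) := by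
    intro g'
    unfold dist2 Pr
    rw [← Ex_mul_left]
    congr 1
    funext x
    by_cases h : f x = g' x
    · rw [ind_false (fun hne => hne h), h]
      ring
    · rw [ind_true h, sg_ne _ _ h]
      ring
  let ext : ∀ j : Fin n, ({i // blk i = j} → Bool) → (Fin m → Bool) := fun j y i =>
    if hi : blk i = j then y ⟨i, hi⟩ else false
  have hext : ∀ j (x : Fin m → Bool), a j (ext j (fun i => x i.1)) = a j x := by
    intro j x
    apply hadep j
    intro i hi
    have hi' : blk i = j := hi
    simp [ext, hi']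
  by_cases hεb : ε ≤ 1 / 16384
  · by_cases hcs : c ≤ 1 / 1024
    · -- small case
      have hVs : V ≤ 1 / 1024 := by
        rw [hV4]
        nlinarith
      have h1 := small_case blk a hadep hamean c (ε / 4) hc0 hcs hVs A hT
      refine ⟨fun j y => decide (1 / 2 ≤ c + a j (ext j y)), ?_⟩
      rw [hd2]
      have h2 : Pr (fun x => f x ≠ orOf blk (fun j y => decide (1 / 2 ≤ c + a j (ext j y))) x) ≤
          Pr (fun x => ¬ (A x ↔ ∃ j, 1 / 2 ≤ c + a j x)) := by
        apply Pr_mono
        intro x hx hiff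
        apply hx
        have h3 : (∃ j, 1 / 2 ≤ c + a j (ext j (fun i => x i.1))) ↔ f x = true := by
          rw [← show A x ↔ f x = true from Iff.rfl, hiff]
          simp only [hext]
        simp only [orOf, decide_eq_true_eq]
        cases hfx : f x
        · symm
          rw [decide_eq_false_iff_not, h3, hfx]
          simp
        · symm
          rw [decide_eq_true_eq, h3, hfx]
      linarith
    · -- large case
      push Not at hcs
      have hVl : 1 / 4096 ≤ V := by
        rw [hV4]
        nlinarith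
      obtain ⟨t, ht⟩ := large_case blk a hadep hamean c (ε / 4) (by linarith) hVl A hT
      refine ⟨fun j y => decide (j = t ∧ 1 / 2 ≤ c + a j (ext j y)), ?_⟩
      rw [hd2]
      have h2 : Pr (fun x => f x ≠
          orOf blk (fun j y => decide (j = t ∧ 1 / 2 ≤ c + a j (ext j y))) x) ≤
          Pr (fun x => ¬ (A x ↔ 1 / 2 ≤ c + a t x)) := by
        apply Pr_mono
        intro x hx hiff
        apply hx
        have h3 : (∃ j, j = t ∧ 1 / 2 ≤ c + a j (ext j (fun i => x i.1))) ↔ f x = true := by
          rw [← show A x ↔ f x = true from Iff.rfl, hiff]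
          simp only [hext]
          constructor
          · rintro ⟨j, rfl, h⟩
            exact h
          · intro h
            exact ⟨t, rfl, h⟩
        simp only [orOf, decide_eq_true_eq]
        cases hfx : f x
        · symm
          rw [decide_eq_false_iff_not, h3, hfx]
          simp
        · symm
          rw [decide_eq_true_eq, h3, hfx]
      linarith
  · push Not at hεb
    refine ⟨fun j y => false, ?_⟩
    rw [hd2]
    have h1 : Pr (fun x => f x ≠ orOf blk (fun _ _ => false) x) ≤ 1 := by
      unfold Pr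
      rw [← Ex_const (ι := Fin m) (α := Bool) 1]
      exact Ex_mono (fun x => ind_le_one _)
    linarith

/-- **Result.** There is a universal constant `K` (one can take `K = 10^8`) such that for every
partition of `m ≥ 1` coordinates into `n` nonempty blocks (given as a surjection
`blk : Fin m → Fin n`), every `ε ≥ 0` and every Boolean function `f` that is `ε`-concentrated
on the partition, there are Boolean functions `h_j` of the blocks such that `f` is within
squared `L_2` distance `K ε` of their OR or of their AND. -/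
theorem result : ∃ K : ℝ, ∀ (m n : ℕ) (blk : Fin m → Fin n), 0 < m → Function.Surjective blk →
    ∀ ε : ℝ, 0 ≤ ε → ∀ f : (Fin m → Bool) → Bool, Concentrated blk ε f →
    ∃ h : ∀ j : Fin n, ({i // blk i = j} → Bool) → Bool,
      dist2 f (orOf blk h) ≤ K * ε ∨ dist2 f (andOf blk h) ≤ K * ε := by
  classical
  refine ⟨100000000, ?_⟩
  intro m n blk hm _ ε _ f hf
  by_cases hmean : 0 ≤ fhat f ∅
  · obtain ⟨h, hh⟩ := main_half blk hm ε f hf hmean
    exact ⟨h, Or.inl hh⟩
  · push Not at hmean
    have hneg : ∀ S, fhat (fun x => !(f x)) S = -fhat f S := by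
      intro S
      unfold fhat
      rw [← neg_one_mul, ← Ex_mul_left]
      congr 1
      funext x
      rw [sg_not]
      ring
    have hf' : Concentrated blk ε (fun x => !(f x)) := by
      unfold Concentrated at *
      simp only [hneg, neg_sq]
      exact hf
    obtain ⟨h, hh⟩ := main_half blk hm ε (fun x => !(f x)) hf' (by rw [hneg]; linarith)
    refine ⟨fun j y => !(h j y), Or.inr ?_⟩
    have : dist2 f (andOf blk (fun j y => !(h j y))) = dist2 (fun x => !(f x)) (orOf blk h) := by
      unfold dist2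
      congr 1
      funext x
      have h1 : andOf blk (fun j y => !(h j y)) x = !(orOf blk h x) := by
        unfold andOf orOf
        rw [← decide_not]
        congr 1
        simp
      rw [h1, sg_not, sg_not]
      ring
    rw [this]
    exact hh

end Fourier

end Pool.Agent.Results.MP_c2536d_co.OrAndStructure
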